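import Mathlib

/-!
Every modular real-time systolic trellis automaton is equivalent to one with at most two types of
processors.
-/

namespace Pool.Agent.Results.MP_bd4c56_lc.TwoTypes

/-! ### Modular labellings -/

/-- `Mk p q M k δ` is the `p^k × q^k` array `M^k_δ` (entries outside of the array are irrelevant):
`M^{k+1}_δ` arises from `M^1_δ` by replacing each entry `δ'` with the block `M^k_δ'`. -/
def Mk {L : Type} (p q : ℕ) (M : L → ℕ → ℕ → L) : ℕ → L → ℕ → ℕ → L
  | 0, δ, _, _ => δ
  | k + 1, δ, i, j => Mk p q M k (M δ (i / p ^ k) (j / q ^ k)) (i % p ^ k) (j % q ^ k)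

/-- Modular labellings of the trellis. -/
def Modular {L : Type} (T : ℕ → ℕ → L) : Prop :=
  ∃ (p q : ℕ) (M : L → ℕ → ℕ → L) (δ₀ : L), 2 ≤ p ∧ 2 ≤ q ∧ M δ₀ 0 0 = δ₀ ∧
    ∀ i j, ∃ K, ∀ k, K ≤ k → T i j = Mk p q M k δ₀ i j

/-- A real-time systolic trellis automaton over the input alphabet `S`: labels, working alphabet,
labelling, transition functions (`none` is the symbol `λ`), embedding of the input alphabet, and
accepting symbols. -/
structure Aut (S : Type) where
  /-- the labels -/
  L : Type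
  /-- the working alphabet -/
  G : Type
  [finL : Finite L]
  [finG : Finite G]
  /-- the labelling -/
  T : ℕ → ℕ → L
  /-- the transition functions -/
  g : L → Option G → Option G → G
  /-- the input alphabet is contained in the working alphabet -/
  emb : S ↪ G
  /-- the accepting symbols -/
  acc : Set G

/-- `out g emb T w d i j` is the output of the node `(i, j)`, if it lies `d` levels above the input
level, i.e. `i + j + d = |w| - 1`. -/
def out {S L G : Type} (g : L → Option G → Option G → G) (emb : S → G) (T : ℕ → ℕ → L)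
    (w : List S) : ℕ → ℕ → ℕ → G
  | 0, i, j => g (T i j) none (w[i]?.map emb)
  | d + 1, i, j => g (T i j) (some (out g emb T w d i (j + 1))) (some (out g emb T w d (i + 1) j))

/-- The accepted language. -/
def Aut.lang {S : Type} (A : Aut S) : Set (List S) :=
  {w | w ≠ [] ∧ out A.g A.emb A.T w (w.length - 1) 0 0 ∈ A.acc}

section Modular

variable {L : Type} {p q : ℕ} {M : L → ℕ → ℕ → L}

lemma Mk_succ' (k : ℕ) : ∀ (δ : L) (i j : ℕ), i < p ^ (k + 1) → j < q ^ (k + 1) →
    Mk p q M (k + 1) δ i j = M (Mk p q M k δ (i / p) (j / q)) (i % p) (j % q) := by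
  induction k with
  | zero =>
    intro δ i j hi hj
    simp only [zero_add, pow_one] at hi hj
    simp [Mk, Nat.mod_eq_of_lt hi, Nat.mod_eq_of_lt hj]
  | succ k ih =>
    intro δ i j hi hj
    have hp : 0 < p := by
      rcases Nat.eq_zero_or_pos p with h | h
      · subst h; simp at hi
      · exact h
    have hq : 0 < q := by
      rcases Nat.eq_zero_or_pos q with h | h
      · subst h; simp at hj
      · exact h
    have e1 : ∀ (p i : ℕ), i % p ^ (k + 1) / p = i / p % p ^ k := by
      intro p i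
      rw [pow_succ', Nat.mod_mul_right_div_self]
    have e2 : ∀ (p i : ℕ), i % p ^ (k + 1) % p = i % p := fun p i =>
      Nat.mod_mod_of_dvd _ (dvd_pow_self p (Nat.succ_ne_zero k))
    have e3 : ∀ (p i : ℕ), i / p ^ (k + 1) = i / p / p ^ k := by
      intro p i
      rw [Nat.div_div_eq_div_mul, pow_succ']
    rw [Mk, ih _ _ _ (Nat.mod_lt _ (by positivity)) (Nat.mod_lt _ (by positivity)), e1, e1, e2, e2,
      e3, e3]
    rfl

lemma Modular.rec {T : ℕ → ℕ → L} (h : Modular T) : ∃ (p q : ℕ) (M : L → ℕ → ℕ → L),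
    2 ≤ p ∧ 2 ≤ q ∧ ∀ i j, T i j = M (T (i / p) (j / q)) (i % p) (j % q) := by
  obtain ⟨p, q, M, δ₀, hp, hq, h0, hT⟩ := h
  refine ⟨p, q, M, hp, hq, fun i j => ?_⟩
  obtain ⟨K1, h1⟩ := hT i j
  obtain ⟨K2, h2⟩ := hT (i / p) (j / q)
  set k := max (max K1 K2) (max i j) with hk
  have hi : i < p ^ (k + 1) :=
    lt_of_le_of_lt (by omega) ((Nat.lt_pow_self (n := k + 1) (show 1 < p by omega)))
  have hj : j < q ^ (k + 1) :=
    lt_of_le_of_lt (by omega) ((Nat.lt_pow_self (n := k + 1) (show 1 < q by omega)))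
  rw [h1 (k + 1) (by omega), h2 k (by omega), Mk_succ' k _ _ _ hi hj]

lemma Mk_eq {T : ℕ → ℕ → L} (hp : 0 < p) (hq : 0 < q)
    (h : ∀ i j, T i j = M (T (i / p) (j / q)) (i % p) (j % q)) (k : ℕ) :
    ∀ (u v a b : ℕ), a < p ^ k → b < q ^ k →
      Mk p q M k (T u v) a b = T (p ^ k * u + a) (q ^ k * v + b) := by
  induction k with
  | zero =>
    intro u v a b ha hb
    simp only [pow_zero, Nat.lt_one_iff] at ha hb
    simp [Mk, ha, hb]
  | succ k ih =>
    intro u v a b ha hb
    have ha' : a / p ^ k < p := Nat.div_lt_of_lt_mul (by rwa [← pow_succ])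
    have hb' : b / q ^ k < q := Nat.div_lt_of_lt_mul (by rwa [← pow_succ])
    have e1 : M (T u v) (a / p ^ k) (b / q ^ k) =
        T (p * u + a / p ^ k) (q * v + b / q ^ k) := by
      rw [h (p * u + a / p ^ k) (q * v + b / q ^ k), Nat.mul_add_div hp, Nat.mul_add_div hq,
        Nat.div_eq_of_lt ha', Nat.div_eq_of_lt hb', Nat.mul_add_mod, Nat.mul_add_mod,
        Nat.mod_eq_of_lt ha', Nat.mod_eq_of_lt hb']
      rfl
    rw [Mk, e1, ih _ _ _ _ (Nat.mod_lt _ (by positivity)) (Nat.mod_lt _ (by positivity))]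
    have e2 : ∀ (p u a : ℕ), p ^ k * (p * u + a / p ^ k) + a % p ^ k = p ^ (k + 1) * u + a := by
      intro p u a
      rw [Nat.mul_add, pow_succ, Nat.add_assoc, Nat.div_add_mod, Nat.mul_assoc]
    rw [e2, e2]

lemma Modular.of_rec {T : ℕ → ℕ → L} (hp : 2 ≤ p) (hq : 2 ≤ q)
    (h : ∀ i j, T i j = M (T (i / p) (j / q)) (i % p) (j % q)) : Modular T := by
  refine ⟨p, q, M, T 0 0, hp, hq, ?_, fun i j => ⟨max i j, fun k hk => ?_⟩⟩
  · have := h 0 0
    simpa using this.symm
  · have hi : i < p ^ k := lt_of_le_of_lt (by omega) (Nat.lt_pow_self (n := k) (show 1 < p by omega))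
    have hj : j < q ^ k := lt_of_le_of_lt (by omega) (Nat.lt_pow_self (n := k) (show 1 < q by omega))
    rw [Mk_eq (by omega) (by omega) h k 0 0 i j hi hj]
    simp

lemma Modular.of_congr {T : ℕ → ℕ → L} (hp : 2 ≤ p) (hq : 2 ≤ q)
    (h : ∀ i j i' j', T i j = T i' j' → ∀ a < p, ∀ b < q,
      T (p * i + a) (q * j + b) = T (p * i' + a) (q * j' + b)) : Modular T := by
  classical
  refine Modular.of_rec (M := fun δ a b => if hx : ∃ x : ℕ × ℕ, T x.1 x.2 = δ then
    T (p * hx.choose.1 + a) (q * hx.choose.2 + b) else δ) hp hq fun i j => ?_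
  have hx : ∃ x : ℕ × ℕ, T x.1 x.2 = T (i / p) (j / q) := ⟨(i / p, j / q), rfl⟩
  simp only [dif_pos hx]
  rw [h _ _ _ _ hx.choose_spec _ (Nat.mod_lt _ (by omega)) _ (Nat.mod_lt _ (by omega)),
    Nat.div_add_mod, Nat.div_add_mod]

end Modular

section Labels

variable {L : Type} (P Q : ℕ) (T : ℕ → ℕ → L)

/-- The labelling extended by a border. -/
def Th (x y : ℕ) : Option L := if x = 0 ∨ y = 0 then none else some (T (x - 1) (y - 1))

variable {P Q T}

lemma hat {MM : L → ℕ → ℕ → L} (hP : 0 < P) (hQ : 0 < Q)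
    (hM : ∀ i j, T i j = MM (T (i / P) (j / Q)) (i % P) (j % Q)) (U V c d : ℕ) :
    Th T (P * U + c) (Q * V + d) = (Th T (U + (c + P - 1) / P) (V + (d + Q - 1) / Q)).map
      (fun δ => MM δ ((c + P - 1) % P) ((d + Q - 1) % Q)) := by
  have key : ∀ (P U c : ℕ), 0 < P → ((P * U + c = 0 ↔ U + (c + P - 1) / P = 0) ∧
      (P * U + c ≠ 0 → (P * U + c - 1) / P = U + (c + P - 1) / P - 1 ∧
        (P * U + c - 1) % P = (c + P - 1) % P)) := by
    intro P U c hP
    have h1 : (c + P - 1) / P = 0 ↔ c = 0 := by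
      constructor
      · intro h
        by_contra hc
        have h2 : P ≤ c + P - 1 := by omega
        have h3 := Nat.div_pos h2 hP
        rw [h] at h3
        exact lt_irrefl _ h3
      · intro h
        subst h
        exact Nat.div_eq_of_lt (by omega)
    constructor
    · constructor
      · intro h
        have h2 : P * U = 0 := by omega
        have h3 : c = 0 := by omega
        have h4 : U = 0 := by
          rcases Nat.mul_eq_zero.1 h2 with h | h
          · omega
          · exact h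
        rw [h4, h1.2 h3]
      · intro h
        have h2 : U = 0 := (Nat.add_eq_zero_iff.1 h).1
        have h3 : c = 0 := h1.1 (Nat.add_eq_zero_iff.1 h).2
        rw [h2, h3]; simp
    · intro h
      have h2 : P * U + c - 1 + P = P * U + (c + P - 1) := by omega
      have h3 : (P * U + c - 1 + P) / P = U + (c + P - 1) / P := by
        rw [h2, Nat.mul_add_div hP]
      rw [Nat.add_div_right _ hP] at h3
      have h4 : (P * U + c - 1 + P) % P = (c + P - 1) % P := by
        rw [h2, Nat.mul_add_mod]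
      rw [Nat.add_mod_right] at h4
      exact ⟨Nat.eq_sub_of_add_eq h3, h4⟩
  obtain ⟨a1, a2⟩ := key P U c hP
  obtain ⟨b1, b2⟩ := key Q V d hQ
  unfold Th
  by_cases h : P * U + c = 0 ∨ Q * V + d = 0
  · have h' : U + (c + P - 1) / P = 0 ∨ V + (d + Q - 1) / Q = 0 := h.imp a1.1 b1.1
    rw [if_pos h, if_pos h']; rfl
  · have h' : ¬ (U + (c + P - 1) / P = 0 ∨ V + (d + Q - 1) / Q = 0) := fun h2 =>
      h (h2.imp a1.2 b1.2)
    rw [if_neg h, if_neg h', hM]
    push Not at h
    rw [(a2 h.1).1, (a2 h.1).2, (b2 h.2).1, (b2 h.2).2]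
    rfl

variable (P Q T)

/-- The size of the windows. -/
def Dd : ℕ := 2 * P + 2 * Q

/-- The labels of the blocks near the block `(U, V)`. -/
def Nb (U V : ℕ) : Fin (Dd P Q / P + 2) → Fin (Dd P Q / Q + 2) → Option L :=
  fun e f => Th T (U + e) (V + f)

/-- The new labelling. -/
def T' (hP : 0 < P) (hQ : 0 < Q) (i j : ℕ) :
    (Fin (Dd P Q / P + 2) → Fin (Dd P Q / Q + 2) → Option L) × Fin P × Fin Q :=
  (Nb P Q T (i / P) (j / Q), ⟨i % P, Nat.mod_lt _ hP⟩, ⟨j % Q, Nat.mod_lt _ hQ⟩)

variable {P Q T}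

lemma T'_modular {MM : L → ℕ → ℕ → L} (hP : 2 ≤ P) (hQ : 2 ≤ Q)
    (hM : ∀ i j, T i j = MM (T (i / P) (j / Q)) (i % P) (j % Q)) :
    Modular (T' P Q T (by omega) (by omega)) := by
  refine Modular.of_congr hP hQ fun i j i' j' h a ha b hb => ?_
  have hP0 : 0 < P := by omega
  have hQ0 : 0 < Q := by omega
  simp only [T', Prod.mk.injEq, Fin.mk.injEq] at h
  obtain ⟨h1, h2, h3⟩ := h
  simp only [T', Prod.mk.injEq, Fin.mk.injEq]
  refine ⟨?_, by rw [Nat.mul_add_mod, Nat.mul_add_mod], by rw [Nat.mul_add_mod, Nat.mul_add_mod]⟩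
  rw [Nat.mul_add_div hP0, Nat.mul_add_div hP0, Nat.mul_add_div hQ0, Nat.mul_add_div hQ0,
    Nat.div_eq_of_lt ha, Nat.div_eq_of_lt hb]
  simp only [Nat.add_zero]
  funext e f
  unfold Nb
  have e1 : i + (e : ℕ) = P * (i / P) + (i % P + e) := by
    have := Nat.div_add_mod i P; omega
  have e2 : i' + (e : ℕ) = P * (i' / P) + (i % P + e) := by
    have := Nat.div_add_mod i' P; rw [h2]; omega
  have e3 : j + (f : ℕ) = Q * (j / Q) + (j % Q + f) := by
    have := Nat.div_add_mod j Q; omega
  have e4 : j' + (f : ℕ) = Q * (j' / Q) + (j % Q + f) := by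
    have := Nat.div_add_mod j' Q; rw [h3]; omega
  rw [e1, e2, e3, e4, hat hP0 hQ0 hM, hat hP0 hQ0 hM]
  have key : ∀ (P i n : ℕ) (e : Fin (n + 2)), 2 ≤ P → (i % P + (e : ℕ) + P - 1) / P < n + 2 := by
    intro P i n e hP
    have h4 := Nat.mod_lt i (show 0 < P by omega)
    have h5 := e.2
    rw [Nat.div_lt_iff_lt_mul (by omega)]
    have h6 : n ≤ n * P := Nat.le_mul_of_pos_right n (by omega)
    have h7 : (n + 2) * P = n * P + 2 * P := by ring
    rw [h7]
    omega
  have h6 := congrFun (congrFun h1 ⟨_, key P i _ e hP⟩) ⟨_, key Q j _ f hQ⟩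
  unfold Nb at h6
  simp only at h6
  rw [h6]

/-- Cardinality estimate: there is room for the code in a block. -/
lemma room (m P Q : ℕ) (hP : 100 * (m + 1) ≤ P) (hQ : 100 * (m + 1) ≤ Q) :
    m * ((Dd P Q / P + 2) * (Dd P Q / Q + 2)) ≤ (P - 1) * (Q - 2) := by
  have h1 : P * (Dd P Q / P + 2) ≤ 4 * P + 2 * Q := by
    have := Nat.mul_div_le (Dd P Q) P
    unfold Dd at *
    nlinarith
  have h2 : Q * (Dd P Q / Q + 2) ≤ 4 * Q + 2 * P := by
    have := Nat.mul_div_le (Dd P Q) Q
    unfold Dd at *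
    nlinarith
  set E := Dd P Q / P + 2
  set F := Dd P Q / Q + 2
  have h3 : P * Q * (E * F) ≤ (4 * P + 2 * Q) * (4 * Q + 2 * P) := by
    calc P * Q * (E * F) = (P * E) * (Q * F) := by ring
      _ ≤ _ := Nat.mul_le_mul h1 h2
  have hPQ : 0 < P * Q := Nat.mul_pos (by omega) (by omega)
  refine Nat.le_of_mul_le_mul_left ?_ hPQ
  calc P * Q * (m * (E * F)) = m * (P * Q * (E * F)) := by ring
    _ ≤ m * ((4 * P + 2 * Q) * (4 * Q + 2 * P)) := Nat.mul_le_mul_left _ h3
    _ ≤ P * Q * ((P - 1) * (Q - 2)) := by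
      have hm1 : 100 * m ≤ P := by omega
      have hm2 : 100 * m ≤ Q := by omega
      have h4 : 100 * (m * ((4 * P + 2 * Q) * (4 * Q + 2 * P))) ≤ P * Q * (28 * P + 8 * Q) := by
        calc 100 * (m * ((4 * P + 2 * Q) * (4 * Q + 2 * P))) =
            (100 * m) * (20 * P * Q) + (100 * m) * (8 * P * P) + (100 * m) * (8 * Q * Q) := by ring
          _ ≤ P * (20 * P * Q) + Q * (8 * P * P) + P * (8 * Q * Q) :=
            Nat.add_le_add (Nat.add_le_add (Nat.mul_le_mul_right _ hm1)
              (Nat.mul_le_mul_right _ hm2)) (Nat.mul_le_mul_right _ hm1)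
          _ = P * Q * (28 * P + 8 * Q) := by ring
      have h5 : 28 * P + 8 * Q ≤ 100 * ((P - 1) * (Q - 2)) := by
        obtain ⟨P', rfl⟩ : ∃ P', P = P' + 1 := ⟨P - 1, by omega⟩
        obtain ⟨Q', rfl⟩ : ∃ Q', Q = Q' + 2 := ⟨Q - 2, by omega⟩
        simp only [Nat.add_sub_cancel]
        have h6 : 98 ≤ Q' := by omega
        have h7 : 98 ≤ P' := by omega
        nlinarith [Nat.mul_le_mul h7 h6]
      have h8 := Nat.mul_le_mul_left (P * Q) h5
      have h9 : 100 * (m * ((4 * P + 2 * Q) * (4 * Q + 2 * P))) ≤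
          100 * (P * Q * ((P - 1) * (Q - 2))) := by
        refine h4.trans (h8.trans (le_of_eq ?_))
        ring
      exact Nat.le_of_mul_le_mul_left h9 (by norm_num)

variable [Finite L]

/-- The code of the labels of a block by the bits of the block. -/
lemma exists_code (m : ℕ) (hm : Nat.card (Option L) ≤ 2 ^ m) (hP : 100 * (m + 1) ≤ P)
    (hQ : 100 * (m + 1) ≤ Q) :
    ∃ code : (Fin (Dd P Q / P + 2) → Fin (Dd P Q / Q + 2) → Option L) → ℕ → ℕ → Bool,
      ∀ N N', (∀ a b, 1 ≤ a → a < P → 2 ≤ b → b < Q → code N a b = code N' a b) → N = N' := by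
  classical
  have := Fintype.ofFinite L
  have hcard : Fintype.card (Fin (Dd P Q / P + 2) → Fin (Dd P Q / Q + 2) → Option L) ≤
      Fintype.card (Fin (P - 1) × Fin (Q - 2) → Bool) := by
    simp only [Fintype.card_fun, Fintype.card_fin, Fintype.card_prod, Fintype.card_bool]
    rw [Nat.card_eq_fintype_card] at hm
    calc (Fintype.card (Option L) ^ (Dd P Q / Q + 2)) ^ (Dd P Q / P + 2)
        ≤ ((2 ^ m) ^ (Dd P Q / Q + 2)) ^ (Dd P Q / P + 2) :=
          Nat.pow_le_pow_left (Nat.pow_le_pow_left hm _) _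
      _ = 2 ^ (m * ((Dd P Q / P + 2) * (Dd P Q / Q + 2))) := by
          rw [← pow_mul, ← pow_mul]; congr 1; ring
      _ ≤ 2 ^ ((P - 1) * (Q - 2)) := Nat.pow_le_pow_right (by norm_num) (room m P Q hP hQ)
  obtain ⟨emb⟩ := Function.Embedding.nonempty_of_card_le hcard
  refine ⟨fun N a b => if h : a - 1 < P - 1 ∧ b - 2 < Q - 2 then emb N (⟨a - 1, h.1⟩, ⟨b - 2, h.2⟩)
    else false, fun N N' h => emb.injective ?_⟩
  funext x
  obtain ⟨⟨a, ha⟩, ⟨b, hb⟩⟩ := x
  have h1 := h (a + 1) (b + 2) (by omega) (by omega) (by omega) (by omega)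
  have h2 : a + 1 - 1 < P - 1 ∧ b + 2 - 2 < Q - 2 := by omega
  beta_reduce at h1
  rw [dif_pos h2, dif_pos h2] at h1
  simpa using h1

variable (code : (Fin (Dd P Q / P + 2) → Fin (Dd P Q / Q + 2) → Option L) → ℕ → ℕ → Bool)

/-- The type of processor of a label. -/
def bit (x : (Fin (Dd P Q / P + 2) → Fin (Dd P Q / Q + 2) → Option L) × Fin P × Fin Q) : Bool :=
  if (x.2.2 : ℕ) = 0 then true else if (x.2.1 : ℕ) = 0 then false else
    if (x.2.2 : ℕ) = 1 then true else code x.1 x.2.1 x.2.2

/-- The bits determine the labels. -/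
lemma decode {MM : L → ℕ → ℕ → L} (hP : 2 ≤ P) (hQ : 2 ≤ Q)
    (hM : ∀ i j, T i j = MM (T (i / P) (j / Q)) (i % P) (j % Q))
    (hcode : ∀ N N', (∀ a b, 1 ≤ a → a < P → 2 ≤ b → b < Q → code N a b = code N' a b) → N = N')
    (i j i' j' : ℕ)
    (h : ∀ s t, s + t ≤ Dd P Q → bit code (T' P Q T (by omega) (by omega) (i + s) (j + t)) =
      bit code (T' P Q T (by omega) (by omega) (i' + s) (j' + t))) :
    ∀ s t, s + t ≤ Dd P Q → T (i + s) (j + t) = T (i' + s) (j' + t) := by
  have hP0 : 0 < P := by omega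
  have hQ0 : 0 < Q := by omega
  have hb : ∀ i j, bit code (T' P Q T (by omega) (by omega) i j) =
      if j % Q = 0 then true else if i % P = 0 then false else
        if j % Q = 1 then true else code (Nb P Q T (i / P) (j / Q)) (i % P) (j % Q) :=
    fun i j => rfl
  simp only [hb] at h
  have hD : Dd P Q = 2 * P + 2 * Q := rfl
  -- residues
  have shift : ∀ (P i r : ℕ), 0 < P → r < P → ∃ t < P, (i + t) % P = r := by
    intro P i r hP hr
    refine ⟨(r + (P - i % P)) % P, Nat.mod_lt _ hP, ?_⟩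
    have h1 := Nat.mod_lt i hP
    rw [Nat.add_mod_mod]
    have h2 : i + (r + (P - i % P)) = P * (i / P) + (r + P) := by
      have := Nat.div_add_mod i P; omega
    rw [h2, Nat.mul_add_mod, Nat.add_mod_right, Nat.mod_eq_of_lt hr]
  have cancel : ∀ (P i i' t : ℕ), (i + t) % P = (i' + t) % P → i % P = i' % P := by
    intro P i i' t h
    exact Nat.ModEq.add_right_cancel' t h
  have hj : j % Q = j' % Q := by
    obtain ⟨s, hs, hs2⟩ := shift Q j 0 hQ0 hQ0
    obtain ⟨t, ht, ht2⟩ := shift P i' 0 hP0 hP0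
    have h1 := h t s (by omega)
    rw [if_pos hs2, if_pos ht2] at h1
    by_cases h2 : (j' + s) % Q = 0
    · exact cancel Q j j' s (hs2.trans h2.symm)
    · rw [if_neg h2] at h1; exact absurd h1 (by simp)
  have hi : i % P = i' % P := by
    obtain ⟨s, hs, hs2⟩ := shift Q j 1 hQ0 (by omega)
    obtain ⟨t, ht, ht2⟩ := shift P i 0 hP0 hP0
    have hs3 : (j' + s) % Q = 1 := by
      rw [← hs2, Nat.add_mod, ← hj, ← Nat.add_mod]
    have h1 := h t s (by omega)
    rw [hs2, hs3, if_neg (by norm_num), if_pos ht2, if_neg (by norm_num)] at h1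
    by_cases h2 : (i' + t) % P = 0
    · exact cancel P i i' t (ht2.trans h2.symm)
    · rw [if_neg h2] at h1; exact absurd h1 (by simp)
  -- the anchor block
  obtain ⟨t0, ht0, ht⟩ := shift P i 0 hP0 hP0
  obtain ⟨s0, hs0, hs⟩ := shift Q j 0 hQ0 hQ0
  have ht' : (i' + t0) % P = 0 := by rw [← ht, Nat.add_mod, ← hi, ← Nat.add_mod]
  have hs' : (j' + s0) % Q = 0 := by rw [← hs, Nat.add_mod, ← hj, ← Nat.add_mod]
  have eU : i + t0 = P * ((i + t0) / P) := by have := Nat.div_add_mod (i + t0) P; omega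
  have eV : j + s0 = Q * ((j + s0) / Q) := by have := Nat.div_add_mod (j + s0) Q; omega
  have eU' : i' + t0 = P * ((i' + t0) / P) := by have := Nat.div_add_mod (i' + t0) P; omega
  have eV' : j' + s0 = Q * ((j' + s0) / Q) := by have := Nat.div_add_mod (j' + s0) Q; omega
  set U := (i + t0) / P
  set V := (j + s0) / Q
  set U' := (i' + t0) / P
  set V' := (j' + s0) / Q
  have hN : Nb P Q T U V = Nb P Q T U' V' := by
    refine hcode _ _ fun a b ha ha' hb hb' => ?_
    have h1 := h (t0 + a) (s0 + b) (by omega)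
    have e1 : ∀ (P i t0 U a : ℕ), i + t0 = P * U → a < P → 0 < P →
        (i + (t0 + a)) / P = U ∧ (i + (t0 + a)) % P = a := by
      intro P i t0 U a h ha hP
      rw [← Nat.add_assoc, h, Nat.mul_add_div hP, Nat.div_eq_of_lt ha, Nat.mul_add_mod,
        Nat.mod_eq_of_lt ha]
      exact ⟨rfl, rfl⟩
    rw [(e1 P i t0 U a eU ha' hP0).1, (e1 P i t0 U a eU ha' hP0).2,
      (e1 Q j s0 V b eV hb' hQ0).1, (e1 Q j s0 V b eV hb' hQ0).2,
      (e1 P i' t0 U' a eU' ha' hP0).1, (e1 P i' t0 U' a eU' ha' hP0).2,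
      (e1 Q j' s0 V' b eV' hb' hQ0).1, (e1 Q j' s0 V' b eV' hb' hQ0).2,
      if_neg (by omega), if_neg (by omega), if_neg (by omega), if_neg (by omega),
      if_neg (by omega), if_neg (by omega)] at h1
    exact h1
  -- all labels
  intro s t hst
  have e2 : ∀ (P i t0 U s D : ℕ), i + t0 = P * U → t0 < P → s ≤ D →
      ∃ e, e < D / P + 2 ∧ (i + s) / P + 1 = U + e ∧ e = (s + P - t0) / P := by
    intro P i t0 U s D h ht hs
    refine ⟨(s + P - t0) / P, ?_, ?_, rfl⟩
    · have h1 : (s + P - t0) / P ≤ (D + P) / P := Nat.div_le_div_right (by omega)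
      rw [Nat.add_div_right _ (by omega)] at h1
      omega
    · rw [← Nat.add_div_right _ (by omega), show i + s + P = P * U + (s + P - t0) by omega,
        Nat.mul_add_div (by omega)]
  obtain ⟨e, he1, he2, he3⟩ := e2 P i t0 U s (Dd P Q) eU ht0 (by omega)
  obtain ⟨e', he1', he2', he3'⟩ := e2 P i' t0 U' s (Dd P Q) eU' ht0 (by omega)
  obtain ⟨f, hf1, hf2, hf3⟩ := e2 Q j s0 V t (Dd P Q) eV hs0 (by omega)
  obtain ⟨f', hf1', hf2', hf3'⟩ := e2 Q j' s0 V' t (Dd P Q) eV' hs0 (by omega)
  obtain rfl : e = e' := he3.trans he3'.symm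
  obtain rfl : f = f' := hf3.trans hf3'.symm
  have h1 := congrFun (congrFun hN ⟨e, he1⟩) ⟨f, hf1⟩
  simp only [Nb] at h1
  rw [← he2, ← he2', ← hf2, ← hf2'] at h1
  simp only [Th, Nat.add_eq_zero_iff, one_ne_zero, and_false, or_self, if_false,
    Nat.add_sub_cancel, Option.some.injEq] at h1
  rw [hM (i + s) (j + t), hM (i' + s) (j' + t), h1, Nat.add_mod i s, Nat.add_mod i' s, hi,
    Nat.add_mod j t, Nat.add_mod j' t, hj]

end Labels

/-! ### The simulating automaton -/

section Simulation

/-- Windows of bits of size `D`. -/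
def Bd (D : ℕ) : Type := {β : ℕ → ℕ → Bool // ∀ s t, D < s + t → β s t = false}

instance finiteBd (D : ℕ) : Finite (Bd D) := by
  refine Finite.of_injective (fun (β : Bd D) (s t : Fin (D + 1)) => β.1 s t) ?_
  intro β β' h
  apply Subtype.ext
  funext s t
  by_cases hst : D < s + t
  · rw [β.2 s t hst, β'.2 s t hst]
  · exact congrFun (congrFun h ⟨s, by omega⟩) ⟨t, by omega⟩

/-- Combine a bit and the windows of the two children. -/
def shiftB {D : ℕ} (b : Bool) (β₁ β₂ : Bd D) : Bd D :=
  ⟨fun s t => if D < s + t then false else match s, t with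
    | 0, 0 => b
    | 0, t + 1 => β₁.1 0 t
    | s + 1, t => β₂.1 s t, fun s t h => if_pos h⟩

/-- The window at a node which lies `d` levels above the input level. -/
def wd (bt : ℕ → ℕ → Bool) (D d i j : ℕ) : Bd D :=
  ⟨fun s t => if s + t ≤ min d D then bt (i + s) (j + t) else false, fun s t h =>
    if_neg (by omega)⟩

lemma shiftB_wd (bt : ℕ → ℕ → Bool) (D d i j : ℕ) :
    shiftB (bt i j) (wd bt D d i (j + 1)) (wd bt D d (i + 1) j) = wd bt D (d + 1) i j := by
  apply Subtype.ext
  funext s t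
  simp only [shiftB, wd]
  rcases s with _ | s
  · rcases t with _ | t
    · simp
    · by_cases h : D < 0 + (t + 1)
      · rw [if_pos h, if_neg (by omega)]
      · rw [if_neg h]
        change (if 0 + t ≤ min d D then bt (i + 0) (j + 1 + t) else false) = _
        by_cases h2 : t ≤ d
        · rw [if_pos (by omega), if_pos (by omega), show j + 1 + t = j + (t + 1) by omega]
        · rw [if_neg (by omega), if_neg (by omega)]
  · by_cases h : D < s + 1 + t
    · rw [if_pos h, if_neg (by omega)]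
    · rw [if_neg h]
      change (if s + t ≤ min d D then bt (i + 1 + s) (j + t) else false) = _
      by_cases h2 : s + t ≤ d
      · rw [if_pos (by omega), if_pos (by omega), show i + 1 + s = i + (s + 1) by omega]
      · rw [if_neg (by omega), if_neg (by omega)]

variable {S L G : Type} (D : ℕ)

/-- The new working alphabet: input letters, early states (the input letters and the window above
the node) and late states (the simulated symbol and the window). -/
abbrev St (S G : Type) (D : ℕ) : Type :=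
  S ⊕ (({l : List S // l.length ≤ D} × Bd D) ⊕ (G × Bd D))

open Classical in
/-- The labels decoded from a window. -/
noncomputable def dec (T : ℕ → ℕ → L) (bt : ℕ → ℕ → Bool) (D : ℕ) (β : Bd D) : ℕ → ℕ → L :=
  if h : ∃ x : ℕ × ℕ, wd bt D D x.1 x.2 = β then
    fun s t => T (h.choose.1 + s) (h.choose.2 + t) else fun _ _ => T 0 0

lemma dec_spec {T : ℕ → ℕ → L} {bt : ℕ → ℕ → Bool} {D : ℕ}
    (H : ∀ i j i' j', (∀ s t, s + t ≤ D → bt (i + s) (j + t) = bt (i' + s) (j' + t)) →
      ∀ s t, s + t ≤ D → T (i + s) (j + t) = T (i' + s) (j' + t)) (i j s t : ℕ) (hst : s + t ≤ D) :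
    dec T bt D (wd bt D D i j) s t = T (i + s) (j + t) := by
  classical
  have h : ∃ x : ℕ × ℕ, wd bt D D x.1 x.2 = wd bt D D i j := ⟨(i, j), rfl⟩
  unfold dec
  rw [dif_pos h]
  refine H _ _ _ _ (fun s t hst => ?_) s t hst
  have h1 := congrFun (congrFun (congrArg Subtype.val h.choose_spec) s) t
  simp only [wd] at h1
  rw [if_pos (by omega), if_pos (by omega)] at h1
  exact h1

open Classical in
/-- The transition function of the simulating automaton for the type `b`. -/
noncomputable def gB (g : L → Option G → Option G → G) (emb : S → G) (T : ℕ → ℕ → L)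
    (bt : ℕ → ℕ → Bool) (D : ℕ) (b : Bool) : Option (St S G D) → Option (St S G D) → St S G D
  | none, some (.inl a) => if h : 1 ≤ D then
      .inr (.inl (⟨[a], h⟩, ⟨fun s t => if s + t ≤ 0 then b else false, fun s t h =>
        if_neg (by omega)⟩)) else .inl a
  | some (.inr (.inl (w₁, β₁))), some (.inr (.inl (w₂, β₂))) =>
      if h : (w₁.1.take 1 ++ w₂.1).length ≤ D then
        .inr (.inl (⟨w₁.1.take 1 ++ w₂.1, h⟩, shiftB b β₁ β₂))
      else .inr (.inr (out g emb (dec T bt D (shiftB b β₁ β₂)) (w₁.1.take 1 ++ w₂.1) D 0 0,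
        shiftB b β₁ β₂))
  | some (.inr (.inr (γ₁, β₁))), some (.inr (.inr (γ₂, β₂))) =>
      .inr (.inr (g (dec T bt D (shiftB b β₁ β₂) 0 0) (some γ₁) (some γ₂), shiftB b β₁ β₂))
  | _, _ => .inr (.inl (⟨[], Nat.zero_le _⟩, ⟨fun _ _ => false, fun _ _ _ => rfl⟩))

variable {D}

lemma out_window {g : L → Option G → Option G → G} {emb : S → G} {T lab : ℕ → ℕ → L} {i j : ℕ}
    {w : List S} (hlab : ∀ s t, s + t ≤ D → lab s t = T (i + s) (j + t)) :
    ∀ d s t, s + t + d = D →
      out g emb lab ((w.drop i).take (D + 1)) d s t = out g emb T w d (i + s) (j + t) := by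
  intro d
  induction d with
  | zero =>
    intro s t h
    simp only [out]
    rw [hlab s t (by omega), List.getElem?_take_of_lt (by omega), List.getElem?_drop]
  | succ d ih =>
    intro s t h
    simp only [out]
    rw [hlab s t (by omega), ih s (t + 1) (by omega), ih (s + 1) t (by omega)]
    rfl

lemma gB_out {g : L → Option G → Option G → G} {emb : S → G} {T : ℕ → ℕ → L}
    {bt : ℕ → ℕ → Bool} (hD : 1 ≤ D)
    (H : ∀ i j i' j', (∀ s t, s + t ≤ D → bt (i + s) (j + t) = bt (i' + s) (j' + t)) →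
      ∀ s t, s + t ≤ D → T (i + s) (j + t) = T (i' + s) (j' + t)) (w : List S) :
    ∀ d i j, i + j + d + 1 = w.length →
      (d < D → ∃ h, out (gB g emb T bt D) (fun a => (.inl a : St S G D)) bt w d i j =
        .inr (.inl (⟨(w.drop i).take (d + 1), h⟩, wd bt D d i j))) ∧
      (D ≤ d → out (gB g emb T bt D) (fun a => (.inl a : St S G D)) bt w d i j =
        .inr (.inr (out g emb T w d i j, wd bt D d i j))) := by
  intro d
  induction d with
  | zero =>
    intro i j hw
    refine ⟨fun _ => ?_, fun h => by omega⟩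
    have hi : i < w.length := by omega
    have e1 : (w.drop i).take 1 = [w[i]] := by
      rw [List.drop_eq_getElem_cons hi]; rfl
    refine ⟨by rw [e1]; exact hD, ?_⟩
    simp only [out, List.getElem?_eq_getElem hi, Option.map_some, gB, dif_pos hD]
    congr 3
    · exact Subtype.ext e1.symm
    · apply Subtype.ext
      funext s t
      simp only [wd]
      by_cases h : s + t ≤ 0
      · rw [if_pos h, if_pos (by omega), show s = 0 by omega, show t = 0 by omega]; rfl
      · rw [if_neg h, if_neg (by omega)]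
  | succ d ih =>
    intro i j hw
    obtain ⟨a1, a2⟩ := ih i (j + 1) (by omega)
    obtain ⟨b1, b2⟩ := ih (i + 1) j (by omega)
    have hi : i < w.length := by omega
    have e1 : ((w.drop i).take (d + 1)).take 1 ++ (w.drop (i + 1)).take (d + 1) =
        (w.drop i).take (d + 1 + 1) := by
      rw [List.drop_eq_getElem_cons hi, List.take_succ_cons, List.take_succ_cons]
      rfl
    have e2 : ((w.drop i).take (d + 1 + 1)).length = d + 2 := by
      rw [List.length_take, List.length_drop]; omega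
    constructor
    · intro hd
      obtain ⟨h1, h2⟩ := a1 (by omega)
      obtain ⟨h3, h4⟩ := b1 (by omega)
      refine ⟨by rw [e2]; omega, ?_⟩
      rw [out, h2, h4]
      simp only [gB, shiftB_wd, e1]
      rw [dif_pos (by rw [e2]; omega)]
    · intro hd
      rcases Nat.lt_or_ge d D with h | h
      · obtain ⟨h1, h2⟩ := a1 h
        obtain ⟨h3, h4⟩ := b1 h
        rw [out, h2, h4]
        simp only [gB, shiftB_wd, e1]
        rw [dif_neg (by rw [e2]; omega)]
        have hdD : d + 1 = D := by omega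
        subst hdD
        congr 3
        exact out_window (fun s t hst => dec_spec H i j s t hst) _ 0 0 (by omega)
      · rw [out, a2 h, b2 h]
        simp only [gB, shiftB_wd]
        have e3 : wd bt D (d + 1) i j = wd bt D D i j := by
          apply Subtype.ext
          funext s t
          simp only [wd]
          rw [show min (d + 1) D = D by omega, Nat.min_self]
        rw [e3, dec_spec H i j 0 0 (by omega)]
        rfl

end Simulation

/-- **Main theorem.** For every automaton with a modular labelling there is an automaton with a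
modular labelling which accepts the same language and has at most two distinct transition
functions. -/
theorem result (S : Type) [Finite S] (A : Aut S) (hA : Modular A.T) :
    ∃ B : Aut S, Modular B.T ∧ B.lang = A.lang ∧ (Set.range B.g).ncard ≤ 2 := by
  classical
  have := A.finL
  have := A.finG
  obtain ⟨p, q, M, hp, hq, hM⟩ := hA.rec
  set m := Nat.card (Option A.L) with hm
  set r := 100 * (m + 1) with hr
  have hr0 : 0 < r := by omega
  set P := p ^ r with hPdef
  set Q := q ^ r with hQdef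
  have hP : r ≤ P := (Nat.lt_pow_self (n := r) (show 1 < p by omega)).le
  have hQ : r ≤ Q := (Nat.lt_pow_self (n := r) (show 1 < q by omega)).le
  have hP2 : 2 ≤ P := by omega
  have hQ2 : 2 ≤ Q := by omega
  have hMM : ∀ i j, A.T i j = Mk p q M r (A.T (i / P) (j / Q)) (i % P) (j % Q) := by
    intro i j
    rw [Mk_eq (by omega) (by omega) hM r _ _ _ _ (Nat.mod_lt _ (by omega))
      (Nat.mod_lt _ (by omega)), Nat.div_add_mod, Nat.div_add_mod]
  obtain ⟨code, hcode⟩ := exists_code (L := A.L) (P := P) (Q := Q) m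
    (Nat.lt_two_pow_self).le hP hQ
  set lab := T' P Q A.T (by omega) (by omega) with hlab
  set bt : ℕ → ℕ → Bool := fun i j => bit code (lab i j) with hbt
  have H : ∀ i j i' j', (∀ s t, s + t ≤ Dd P Q → bt (i + s) (j + t) = bt (i' + s) (j' + t)) →
      ∀ s t, s + t ≤ Dd P Q → A.T (i + s) (j + t) = A.T (i' + s) (j' + t) :=
    fun i j i' j' h => decode code hP2 hQ2 hMM hcode i j i' j' h
  have hD : 1 ≤ Dd P Q := by unfold Dd; omega
  let B : Aut S :=
    { L := (Fin (Dd P Q / P + 2) → Fin (Dd P Q / Q + 2) → Option A.L) × Fin P × Fin Q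
      G := St S A.G (Dd P Q)
      finL := inferInstance
      finG := by
        have : Finite {l : List S // l.length ≤ Dd P Q} := List.finite_length_le S (Dd P Q)
        infer_instance
      T := lab
      g := fun x => gB A.g A.emb A.T bt (Dd P Q) (bit code x)
      emb := ⟨fun a => .inl a, fun a b h => Sum.inl.inj h⟩
      acc := {x | (∃ w β, x = .inr (.inl (w, β)) ∧ w.1 ∈ A.lang) ∨
        (∃ γ β, x = .inr (.inr (γ, β)) ∧ γ ∈ A.acc)} }
  have hout : ∀ (w : List S) d i j, out B.g B.emb B.T w d i j =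
      out (gB A.g A.emb A.T bt (Dd P Q)) (fun a => (.inl a : St S A.G (Dd P Q))) bt w d i j := by
    intro w d
    induction d with
    | zero => intro i j; rfl
    | succ d ih =>
      intro i j
      rw [out, out, ih, ih]
  refine ⟨B, T'_modular hP2 hQ2 hMM, ?_, ?_⟩
  · ext w
    change (w ≠ [] ∧ out B.g B.emb B.T w (w.length - 1) 0 0 ∈ B.acc) ↔ _
    rw [hout]
    by_cases hw : w = []
    · subst hw
      simp [Aut.lang]
    · have hlen : 0 < w.length := List.length_pos_iff.2 hw
      obtain ⟨h1, h2⟩ := gB_out (g := A.g) (emb := A.emb) hD H w (w.length - 1) 0 0 (by omega)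
      rcases Nat.lt_or_ge (w.length - 1) (Dd P Q) with h | h
      · obtain ⟨h3, h4⟩ := h1 h
        rw [h4]
        have e1 : (w.drop 0).take (w.length - 1 + 1) = w := by
          rw [List.drop_zero, Nat.sub_add_cancel hlen, List.take_length]
        constructor
        · rintro ⟨_, ⟨w', β, h5, h6⟩ | ⟨γ, β, h5, h6⟩⟩
          · simp only [Sum.inr.injEq, Sum.inl.injEq, Prod.mk.injEq] at h5
            rw [← h5.1] at h6
            simpa only [e1] using h6
          · simp at h5
        · intro h5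
          refine ⟨hw, Or.inl ⟨_, _, rfl, ?_⟩⟩
          simpa only [e1] using h5
      · rw [h2 h]
        constructor
        · rintro ⟨_, ⟨w', β, h5, h6⟩ | ⟨γ, β, h5, h6⟩⟩
          · simp at h5
          · simp only [Sum.inr.injEq, Prod.mk.injEq] at h5
            rw [← h5.1] at h6
            exact ⟨hw, h6⟩
        · rintro ⟨_, h5⟩
          exact ⟨hw, Or.inr ⟨_, _, rfl, h5⟩⟩
  · have h1 : Set.range B.g ⊆ {gB A.g A.emb A.T bt (Dd P Q) true,
        gB A.g A.emb A.T bt (Dd P Q) false} := by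
      rintro _ ⟨x, rfl⟩
      change gB A.g A.emb A.T bt (Dd P Q) (bit code x) ∈ _
      cases bit code x
      · exact Or.inr rfl
      · exact Or.inl rfl
    exact (Set.ncard_le_ncard h1 (by simp)).trans ((Set.ncard_insert_le _ _).trans (by rw [Set.ncard_singleton]))

end Pool.Agent.Results.MP_bd4c56_lc.TwoTypes
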